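import Mathlib

/-!
# The spectral gap of the discrete KMP process does not depend on the number of particles

For a weighted hypergraph `([n], w)` with non-negative weights, the Laplacian of the discrete KMP
process with `k` particles is `L_k = ∑_B w_B (I - N_B)`, where `N_B` gathers the particles in `B` and
redistributes them uniformly over `B`.  We prove `λ*_k = λ*_2` for every `k ≥ 2` (`result`).

Outline of the proof.

* Identify a vector `v` on configurations with the polynomial `p_v(y) = ∑_f v_f y^f / f!`.  Then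
  `p_{N_B v}(y) = E p_v(M y)`, where `M = M(B, D)` is the random column-stochastic matrix that
  replaces `y_i` (`i ∈ B`) by `D_i ∑_{j ∈ B} y_j`, with `D` uniform on the simplex over `B`
  (`exists_dirichlet`, `multinomial_cls`, `exists_rep`).
* Multiplication by `∑ y_i`, which every `M` preserves, intertwines `L_k` and `L_{k+1}`
  (`intertwine`); this gives the inclusion of the spectra (`good_mono`).
* Let `v` be an eigenvector of `L_k`, `k ≥ 3`.  If `p_v` vanishes on the hyperplane `∑ y_i = 0`, divide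
  it by `∑ y_i` (`exists_div`) and use induction on `k`.  Otherwise compare, on the `ℓ¹` ball of the
  hyperplane, which every `M` preserves, `|p_v|` with a multiple of `∑ y_i ^ 2`.  Iterating the
  positive averaging operator `c I - L`, the degree 2 form decays at the rate given by `λ*_2`, so the
  eigenvalue of `v` is at least `λ*_2` (`stepOp_dominated`, `key`).
-/

open MeasureTheory Set Filter Topology

namespace Pool.Agent.Results.MP_19659a_pr.SpectralGap

section dirichlet

/-- Beta integral -/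
lemma beta_integral (a m : ℕ) :
    ∫ t in (0:ℝ)..1, t ^ a * (1 - t) ^ m = (a.factorial * m.factorial : ℝ) / (a + m + 1).factorial := by
  induction m generalizing a with
  | zero =>
    simp only [pow_zero, mul_one, integral_pow, Nat.factorial_zero, Nat.cast_one]
    rw [Nat.add_zero, Nat.factorial_succ]
    push_cast
    have : (a.factorial : ℝ) ≠ 0 := by positivity
    field_simp
    simp
  | succ m ih =>
    have h1 : ∀ t : ℝ, t ^ a * (1 - t) ^ (m + 1) = t ^ a * (1 - t) ^ m - t ^ (a + 1) * (1 - t) ^ m := by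
      intro t; ring
    simp only [h1]
    rw [intervalIntegral.integral_sub (Continuous.intervalIntegrable (by fun_prop) _ _)
      (Continuous.intervalIntegrable (by fun_prop) _ _), ih, ih]
    have e1 : a + 1 + m + 1 = (a + m + 1) + 1 := by ring
    have e2 : a + (m + 1) + 1 = (a + m + 1) + 1 := by ring
    rw [e1, e2, Nat.factorial_succ (a + m + 1), Nat.factorial_succ a, Nat.factorial_succ m]
    have h2 : ((a + m + 1).factorial : ℝ) ≠ 0 := by positivity
    push_cast
    field_simp
    ring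

/-- The Beta(1,b) law on `[0,1]`, `b ≥ 1` -/
noncomputable def betaLaw (b : ℕ) : Measure ℝ :=
  (volume.restrict (Icc (0:ℝ) 1)).withDensity (fun t => ENNReal.ofReal (b * (1 - t) ^ (b - 1)))

lemma betaLaw_integral (b : ℕ) (g : ℝ → ℝ) :
    ∫ t, g t ∂(betaLaw b) = ∫ t in (0:ℝ)..1, (b * (1 - t) ^ (b - 1)) * g t := by
  unfold betaLaw
  rw [integral_withDensity_eq_integral_toReal_smul (by fun_prop)
    (ae_of_all _ fun _ => ENNReal.ofReal_lt_top), integral_Icc_eq_integral_Ioc,
    ← intervalIntegral.integral_of_le (by norm_num)]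
  refine intervalIntegral.integral_congr fun t ht => ?_
  rw [uIcc_of_le (by norm_num)] at ht
  simp only [smul_eq_mul]
  rw [ENNReal.toReal_ofReal]
  have : 0 ≤ 1 - t := by linarith [ht.2]
  positivity

lemma betaLaw_moment {b : ℕ} (hb : 1 ≤ b) (a l : ℕ) :
    ∫ t, t ^ a * (1 - t) ^ l ∂(betaLaw b) =
      b * (a.factorial * (b - 1 + l).factorial : ℝ) / (b + a + l).factorial := by
  rw [betaLaw_integral]
  have h1 : ∀ t : ℝ, (b * (1 - t) ^ (b - 1)) * (t ^ a * (1 - t) ^ l) =
      b * (t ^ a * (1 - t) ^ (b - 1 + l)) := by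
    intro t; rw [pow_add]; ring
  simp only [h1]
  rw [intervalIntegral.integral_const_mul, beta_integral]
  have : a + (b - 1 + l) + 1 = b + a + l := by omega
  rw [this]
  ring

lemma betaLaw_prob {b : ℕ} (hb : 1 ≤ b) : IsProbabilityMeasure (betaLaw b) := by
  have h1 := betaLaw_moment hb 0 0
  simp only [pow_zero, mul_one, Nat.factorial_zero, Nat.cast_one, one_mul, add_zero] at h1
  have h2 : (b * (b - 1).factorial : ℝ) / (b.factorial : ℝ) = 1 := by
    have : b.factorial = b * (b - 1).factorial := by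
      obtain ⟨c, rfl⟩ := Nat.exists_eq_succ_of_ne_zero (by omega : b ≠ 0)
      simp [Nat.factorial_succ]
    rw [this]
    have h3 : ((b - 1).factorial : ℝ) ≠ 0 := by positivity
    have h4 : (b : ℝ) ≠ 0 := by positivity
    push_cast
    field_simp
  rw [h2] at h1
  rw [integral_const, smul_eq_mul, mul_one] at h1
  refine ⟨?_⟩
  rw [measureReal_def] at h1
  have h5 : (betaLaw b) univ ≠ ⊤ := by
    intro h; rw [h] at h1; simp at h1
  rw [← ENNReal.ofReal_toReal h5, h1, ENNReal.ofReal_one]

lemma betaLaw_ae (b : ℕ) : ∀ᵐ t ∂(betaLaw b), t ∈ Icc (0:ℝ) 1 := by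
  unfold betaLaw
  exact (withDensity_absolutelyContinuous _ _).ae_le (ae_restrict_mem measurableSet_Icc)

lemma meas_simplex {ι : Type*} [Fintype ι] (B : Finset ι) :
    MeasurableSet {D : ι → ℝ | (∀ i, 0 ≤ D i ∧ D i ≤ 1) ∧ ∑ i ∈ B, D i = 1} := by
  have h1 : {D : ι → ℝ | (∀ i, 0 ≤ D i ∧ D i ≤ 1) ∧ ∑ i ∈ B, D i = 1} =
      (⋂ i, ({D : ι → ℝ | 0 ≤ D i} ∩ {D : ι → ℝ | D i ≤ 1})) ∩ {D | ∑ i ∈ B, D i = 1} := by
    ext D
    simp
  rw [h1]
  exact (MeasurableSet.iInter fun i =>
    (measurableSet_le measurable_const (measurable_pi_apply i)).inter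
      (measurableSet_le (measurable_pi_apply i) measurable_const)).inter
      (measurableSet_eq_fun (by fun_prop) measurable_const)

/-- A probability law on the simplex over `B` all whose monomial moments, divided by the factorials
of the exponents, depend only on the degree (the flat Dirichlet law). -/
lemma exists_dirichlet {ι : Type*} [DecidableEq ι] [Fintype ι] {B : Finset ι} (hB : B.Nonempty) :
    ∃ ν : Measure (ι → ℝ), IsProbabilityMeasure ν ∧
      (∀ᵐ D ∂ν, (∀ i, 0 ≤ D i ∧ D i ≤ 1) ∧ ∑ i ∈ B, D i = 1) ∧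
      ∀ f : ι → ℕ, ∫ D, ∏ i ∈ B, D i ^ f i / (f i).factorial ∂ν =
        ((B.card - 1).factorial : ℝ) / (B.card - 1 + ∑ i ∈ B, f i).factorial := by
  induction hB using Finset.Nonempty.cons_induction with
  | singleton a =>
    refine ⟨Measure.dirac (Pi.single a 1), inferInstance, ?_, ?_⟩
    · refine (ae_dirac_iff (meas_simplex _)).2 ⟨fun i => ?_, ?_⟩
      · by_cases h : i = a
        · subst h; simp
        · simp [Pi.single_eq_of_ne h]
      · simp
    · intro f
      rw [integral_dirac]
      simp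
  | cons a B ha hB ih =>
    obtain ⟨ν, hν, hsupp, hmom⟩ := ih
    have hb : 1 ≤ B.card := hB.card_pos
    have hβ := betaLaw_prob hb
    set F : ℝ × (ι → ℝ) → (ι → ℝ) := fun q i => if i = a then q.1 else (1 - q.1) * q.2 i with hF
    have hFm : Measurable F := by
      refine measurable_pi_lambda _ fun i => ?_
      by_cases h : i = a
      · simp only [hF, h, if_true]; exact measurable_fst
      · simp only [hF, h, if_false]; fun_prop
    refine ⟨((betaLaw B.card).prod ν).map F, Measure.isProbabilityMeasure_map hFm.aemeasurable,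
      ?_, ?_⟩
    · refine (ae_map_iff hFm.aemeasurable (meas_simplex _)).2 ?_
      · have h1 : ∀ᵐ q ∂((betaLaw B.card).prod ν), q.1 ∈ Icc (0:ℝ) 1 :=
          Measure.quasiMeasurePreserving_fst.ae (betaLaw_ae _)
        have h2 : ∀ᵐ q ∂((betaLaw B.card).prod ν),
            (∀ i, 0 ≤ q.2 i ∧ q.2 i ≤ 1) ∧ ∑ i ∈ B, q.2 i = 1 :=
          Measure.quasiMeasurePreserving_snd.ae hsupp
        filter_upwards [h1, h2] with q hq1 hq2
        constructor
        · intro i
          simp only [hF]
          have h3 := hq1.1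
          have h4 := hq1.2
          obtain ⟨h5, h6⟩ := hq2.1 i
          split_ifs
          · exact ⟨h3, h4⟩
          · exact ⟨mul_nonneg (by linarith) h5, by nlinarith⟩
        · rw [Finset.sum_cons]
          simp only [hF, if_true]
          have : ∑ x ∈ B, (if x = a then q.1 else (1 - q.1) * q.2 x) = ∑ x ∈ B, (1 - q.1) * q.2 x := by
            refine Finset.sum_congr rfl fun x hx => ?_
            rw [if_neg (fun h : x = a => ha (h ▸ hx))]
          rw [this, ← Finset.mul_sum, hq2.2]
          ring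
    · intro f
      rw [integral_map hFm.aemeasurable
        (Finset.measurable_prod _ fun i _ => by fun_prop).aestronglyMeasurable]
      have h1 : ∀ q : ℝ × (ι → ℝ), ∏ i ∈ Finset.cons a B ha, F q i ^ f i / (f i).factorial =
          (q.1 ^ f a * (1 - q.1) ^ (∑ i ∈ B, f i) / (f a).factorial) *
            ∏ i ∈ B, q.2 i ^ f i / (f i).factorial := by
        intro q
        rw [Finset.prod_cons]
        simp only [hF, if_true]
        have : ∏ x ∈ B, (if x = a then q.1 else (1 - q.1) * q.2 x) ^ f x / (f x).factorial =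
            ∏ x ∈ B, (1 - q.1) ^ f x * (q.2 x ^ f x / (f x).factorial) := by
          refine Finset.prod_congr rfl fun x hx => ?_
          rw [if_neg (fun h : x = a => ha (h ▸ hx)), mul_pow]
          ring
        rw [this, Finset.prod_mul_distrib, Finset.prod_pow_eq_pow_sum]
        ring
      simp only [h1]
      rw [integral_prod_mul (fun t : ℝ => t ^ f a * (1 - t) ^ (∑ i ∈ B, f i) / (f a).factorial)
        (fun D : ι → ℝ => ∏ i ∈ B, D i ^ f i / (f i).factorial), hmom, integral_div,
        betaLaw_moment hb, Finset.card_cons, Finset.sum_cons]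
      have e1 : B.card + 1 - 1 = B.card := by omega
      have e2 : B.card + (f a + ∑ i ∈ B, f i) = B.card + f a + ∑ i ∈ B, f i := by ring
      rw [e1, e2]
      have h3 : B.card.factorial = B.card * (B.card - 1).factorial := by
        obtain ⟨c, hc⟩ := Nat.exists_eq_succ_of_ne_zero (by omega : B.card ≠ 0)
        rw [hc]; simp [Nat.factorial_succ]
      rw [h3]
      have h4 : ((f a).factorial : ℝ) ≠ 0 := by positivity
      have h5 : ((B.card - 1 + ∑ i ∈ B, f i).factorial : ℝ) ≠ 0 := by positivity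
      have h6 : ((B.card + f a + ∑ i ∈ B, f i).factorial : ℝ) ≠ 0 := by positivity
      push_cast
      field_simp

end dirichlet

section configurations

variable {n k : ℕ}

/-- A configuration of `k` particles on `[n]`. -/
abbrev Config (n k : ℕ) : Type := {f : Fin n → ℕ // ∑ i, f i = k}

instance instFintypeConfig : Fintype (Config n k) :=
  Fintype.subtype (Finset.piAntidiag Finset.univ k) (by intro f; simp)

/-- The configurations that agree with `f` outside `B` (they have the same number of particles on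
`B` as `f`). -/
def cls (B : Finset (Fin n)) (f : Config n k) : Finset (Config n k) :=
  Finset.univ.filter fun g => ∀ j, j ∉ B → g.1 j = f.1 j

lemma mem_cls {B : Finset (Fin n)} {f g : Config n k} :
    g ∈ cls B f ↔ ∀ j, j ∉ B → g.1 j = f.1 j := by simp [cls]

lemma cls_self (B : Finset (Fin n)) (f : Config n k) : f ∈ cls B f := mem_cls.2 fun _ _ => rfl

lemma cls_symm {B : Finset (Fin n)} {f g : Config n k} : g ∈ cls B f ↔ f ∈ cls B g := by
  rw [mem_cls, mem_cls]
  exact forall_congr' fun j => imp_congr_right fun _ => eq_comm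

lemma cls_eq {B : Finset (Fin n)} {f g : Config n k} (h : g ∈ cls B f) : cls B g = cls B f := by
  ext e
  rw [mem_cls, mem_cls]
  rw [mem_cls] at h
  exact forall_congr' fun j => imp_congr_right fun hj => by rw [h j hj]

lemma cls_card_pos (B : Finset (Fin n)) (f : Config n k) : 0 < (cls B f).card :=
  Finset.card_pos.2 ⟨f, cls_self B f⟩

lemma cls_sum_eq {B : Finset (Fin n)} {f g : Config n k} (h : g ∈ cls B f) :
    ∑ i ∈ B, g.1 i = ∑ i ∈ B, f.1 i := by
  rw [mem_cls] at h
  have h1 : ∑ i ∈ B, g.1 i + ∑ i ∈ Bᶜ, g.1 i = ∑ i ∈ B, f.1 i + ∑ i ∈ Bᶜ, f.1 i := by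
    rw [Finset.sum_add_sum_compl, Finset.sum_add_sum_compl, g.2, f.2]
  have h2 : ∑ i ∈ Bᶜ, g.1 i = ∑ i ∈ Bᶜ, f.1 i :=
    Finset.sum_congr rfl fun i hi => h i (Finset.mem_compl.1 hi)
  omega

/-- the monomial `y^f / f!` -/
noncomputable def mono (f : Config n k) (y : Fin n → ℝ) : ℝ := ∏ i, y i ^ f.1 i / (f.1 i).factorial

/-- the polynomial function `∑ v f * y^f / f!` -/
noncomputable def pf (v : Config n k → ℝ) (y : Fin n → ℝ) : ℝ := ∑ f, v f * mono f y

/-- real matrix of the redistribution operator -/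
noncomputable def NB (B : Finset (Fin n)) : Matrix (Config n k) (Config n k) ℝ :=
  fun g f => if g ∈ cls B f then ((cls B f).card : ℝ)⁻¹ else 0

/-- redistribution of masses on `B` according to `D` -/
def mv (B : Finset (Fin n)) (D y : Fin n → ℝ) : Fin n → ℝ :=
  fun i => if i ∈ B then D i * ∑ j ∈ B, y j else y i

lemma multinomial_cls (B : Finset (Fin n)) (f : Config n k) (y : Fin n → ℝ) :
    ∑ g ∈ cls B f, ∏ i ∈ B, y i ^ g.1 i / ((g.1 i).factorial : ℝ) =
      (∑ i ∈ B, y i) ^ (∑ i ∈ B, f.1 i) / (∑ i ∈ B, f.1 i).factorial := by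
  set l := ∑ i ∈ B, f.1 i with hl
  have h1 : (∑ i ∈ B, y i) ^ l / (l.factorial : ℝ) =
      ∑ h ∈ Finset.piAntidiag B l, ∏ i ∈ B, y i ^ h i / ((h i).factorial : ℝ) := by
    rw [Finset.sum_pow_eq_sum_piAntidiag, Finset.sum_div]
    refine Finset.sum_congr rfl fun h hh => ?_
    rw [Finset.mem_piAntidiag] at hh
    have h2 := Nat.multinomial_spec B h
    have hh1 : ∑ i ∈ B, h i = l := hh.1
    rw [hh1] at h2
    rw [← h2, Finset.prod_div_distrib]
    have h3 : ((∏ i ∈ B, (h i).factorial : ℕ) : ℝ) ≠ 0 := by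
      exact_mod_cast Finset.prod_ne_zero_iff.2 fun i _ => (Nat.factorial_pos _).ne'
    have h4 : (Nat.multinomial B h : ℝ) ≠ 0 := by
      exact_mod_cast (Nat.multinomial_pos B h).ne'
    push_cast at h3 ⊢
    field_simp
  rw [h1]
  refine Finset.sum_bij' (fun g _ => fun i => if i ∈ B then g.1 i else 0)
    (fun h _ => (if hh : ∑ i, (if i ∈ B then h i else f.1 i) = k then
      ⟨fun i => if i ∈ B then h i else f.1 i, hh⟩ else f)) ?_ ?_ ?_ ?_ ?_
  · intro g hg
    rw [Finset.mem_piAntidiag]
    refine ⟨?_, fun i hi => ?_⟩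
    · have h0 := cls_sum_eq hg
      rw [← hl] at h0
      rw [← h0]
      exact Finset.sum_congr rfl fun i hi => if_pos hi
    · by_contra h
      exact hi (if_neg h)
  · intro h hh
    rw [Finset.mem_piAntidiag] at hh
    have hh1 : ∑ i ∈ B, h i = l := hh.1
    have hk : ∑ i, (if i ∈ B then h i else f.1 i) = k := by
      rw [← Finset.sum_add_sum_compl B]
      have e1 : ∑ i ∈ B, (if i ∈ B then h i else f.1 i) = ∑ i ∈ B, f.1 i := by
        rw [← hl, ← hh1]
        exact Finset.sum_congr rfl fun i hi => if_pos hi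
      have e2 : ∑ i ∈ Bᶜ, (if i ∈ B then h i else f.1 i) = ∑ i ∈ Bᶜ, f.1 i :=
        Finset.sum_congr rfl fun i hi => if_neg (Finset.mem_compl.1 hi)
      rw [e1, e2, Finset.sum_add_sum_compl, f.2]
    rw [dif_pos hk, mem_cls]
    intro j hj
    exact if_neg hj
  · intro g hg
    have hk : ∑ i, (if i ∈ B then (if i ∈ B then g.1 i else 0) else f.1 i) = k := by
      refine Eq.trans ?_ g.2
      refine Finset.sum_congr rfl fun i _ => ?_
      by_cases hi : i ∈ B
      · simp [hi]
      · rw [if_neg hi, mem_cls.1 hg i hi]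
    rw [dif_pos hk]
    apply Subtype.ext
    funext i
    by_cases hi : i ∈ B
    · simp [hi]
    · simp only [hi, if_false]
      exact (mem_cls.1 hg i hi).symm
  · intro h hh
    rw [Finset.mem_piAntidiag] at hh
    have hh1 : ∑ i ∈ B, h i = l := hh.1
    have hk : ∑ i, (if i ∈ B then h i else f.1 i) = k := by
      rw [← Finset.sum_add_sum_compl B]
      have e1 : ∑ i ∈ B, (if i ∈ B then h i else f.1 i) = ∑ i ∈ B, f.1 i := by
        rw [← hl, ← hh1]
        exact Finset.sum_congr rfl fun i hi => if_pos hi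
      have e2 : ∑ i ∈ Bᶜ, (if i ∈ B then h i else f.1 i) = ∑ i ∈ Bᶜ, f.1 i :=
        Finset.sum_congr rfl fun i hi => if_neg (Finset.mem_compl.1 hi)
      rw [e1, e2, Finset.sum_add_sum_compl, f.2]
    funext i
    rw [dif_pos hk]
    by_cases hi : i ∈ B
    · simp [hi]
    · simp only [hi, if_false]
      by_contra h0
      exact hi (hh.2 i (fun h' => h0 h'.symm))
  · intro g hg
    refine Finset.prod_congr rfl fun i hi => ?_
    simp only [hi, if_true]

/-- splitting a monomial along `B` -/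
lemma mono_split (B : Finset (Fin n)) {f g : Config n k} (hg : g ∈ cls B f) (y : Fin n → ℝ) :
    mono g y = (∏ i ∈ Bᶜ, y i ^ f.1 i / ((f.1 i).factorial : ℝ)) *
      ∏ i ∈ B, y i ^ g.1 i / ((g.1 i).factorial : ℝ) := by
  unfold mono
  rw [← Finset.prod_mul_prod_compl B, mul_comm]
  congr 1
  refine Finset.prod_congr rfl fun i hi => ?_
  rw [mem_cls.1 hg i (Finset.mem_compl.1 hi)]

lemma mono_mv (B : Finset (Fin n)) (f : Config n k) (D y : Fin n → ℝ) :
    mono f (mv B D y) = ((∏ i ∈ Bᶜ, y i ^ f.1 i / ((f.1 i).factorial : ℝ)) *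
      (∑ i ∈ B, y i) ^ (∑ i ∈ B, f.1 i)) * ∏ i ∈ B, D i ^ f.1 i / ((f.1 i).factorial : ℝ) := by
  rw [mono_split B (cls_self B f)]
  have e1 : ∏ i ∈ Bᶜ, mv B D y i ^ f.1 i / ((f.1 i).factorial : ℝ) =
      ∏ i ∈ Bᶜ, y i ^ f.1 i / ((f.1 i).factorial : ℝ) := by
    refine Finset.prod_congr rfl fun i hi => ?_
    unfold mv
    rw [if_neg (Finset.mem_compl.1 hi)]
  have e2 : ∏ i ∈ B, mv B D y i ^ f.1 i / ((f.1 i).factorial : ℝ) =
      (∑ i ∈ B, y i) ^ (∑ i ∈ B, f.1 i) * ∏ i ∈ B, D i ^ f.1 i / ((f.1 i).factorial : ℝ) := by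
    rw [← Finset.prod_pow_eq_pow_sum, ← Finset.prod_mul_distrib]
    refine Finset.prod_congr rfl fun i hi => ?_
    unfold mv
    rw [if_pos hi, mul_pow]
    ring
  rw [e1, e2]
  ring

lemma mono_continuous (f : Config n k) : Continuous (mono f) := by
  unfold mono
  fun_prop

lemma pf_continuous (v : Config n k → ℝ) : Continuous (pf v) := by
  unfold pf
  exact continuous_finsetSum _ fun f _ => continuous_const.mul (mono_continuous f)

lemma mv_continuous (B : Finset (Fin n)) (y : Fin n → ℝ) : Continuous fun D => mv B D y := by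
  refine continuous_pi fun i => ?_
  unfold mv
  by_cases h : i ∈ B
  · simp only [h, if_true]; fun_prop
  · simp only [h, if_false]; fun_prop

lemma integrable_of_cube {ν : Measure (Fin n → ℝ)} [IsProbabilityMeasure ν]
    (hν : ∀ᵐ D ∂ν, ∀ i, 0 ≤ D i ∧ D i ≤ 1) {F : (Fin n → ℝ) → ℝ} (hF : Continuous F) :
    Integrable F ν := by
  obtain ⟨C, hC⟩ := (isCompact_Icc (a := (0 : Fin n → ℝ)) (b := 1)).exists_bound_of_continuousOn
    hF.continuousOn
  refine Integrable.of_bound hF.aestronglyMeasurable C ?_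
  filter_upwards [hν] with D hD
  exact hC D ⟨fun i => (hD i).1, fun i => (hD i).2⟩

/-- The redistribution operator is an average of substitutions `y ↦ mv B D y` by column-stochastic
matrices. -/
lemma exists_rep (B : Finset (Fin n)) : ∃ ν : Measure (Fin n → ℝ), IsProbabilityMeasure ν ∧
    (∀ᵐ D ∂ν, ∀ i, 0 ≤ D i ∧ D i ≤ 1) ∧
    (∀ᵐ D ∂ν, ∀ y : Fin n → ℝ, ∑ i, mv B D y i = ∑ i, y i ∧ ∑ i, |mv B D y i| ≤ ∑ i, |y i|) ∧
    ∀ (k : ℕ) (v : Config n k → ℝ) (y : Fin n → ℝ),
      pf ((NB B).mulVec v) y = ∫ D, pf v (mv B D y) ∂ν := by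
  have hNB : ∀ (k : ℕ) (v : Config n k → ℝ) (y : Fin n → ℝ), pf ((NB B).mulVec v) y =
      ∑ f, v f * (((cls B f).card : ℝ)⁻¹ * ∑ g ∈ cls B f, mono g y) := by
    intro k v y
    unfold pf
    simp only [Matrix.mulVec, dotProduct, Finset.sum_mul]
    rw [Finset.sum_comm]
    refine Finset.sum_congr rfl fun f _ => ?_
    unfold NB
    rw [Finset.mul_sum, Finset.mul_sum]
    have : ∀ g : Config n k, (if g ∈ cls B f then ((cls B f).card : ℝ)⁻¹ else 0) * v f * mono g y =
        if g ∈ cls B f then v f * (((cls B f).card : ℝ)⁻¹ * mono g y) else 0 := by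
      intro g
      split_ifs <;> ring
    rw [Finset.sum_congr rfl fun g _ => this g, Finset.sum_ite_mem, Finset.univ_inter]
  rcases B.eq_empty_or_nonempty with hB | hB
  · subst hB
    have hmv : ∀ D y : Fin n → ℝ, mv ∅ D y = y := by
      intro D y; funext i; simp [mv]
    refine ⟨Measure.dirac 0, inferInstance, ?_, ?_, ?_⟩
    · exact (ae_dirac_eq (0 : Fin n → ℝ)) ▸ (by simp : ∀ i : Fin n, 0 ≤ (0 : Fin n → ℝ) i ∧ (0 : Fin n → ℝ) i ≤ 1)
    · refine ae_of_all _ fun D y => ?_
      rw [hmv]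
      exact ⟨rfl, le_rfl⟩
    · intro k v y
      rw [hNB]
      simp only [hmv, integral_const, probReal_univ, one_smul]
      unfold pf
      refine Finset.sum_congr rfl fun f _ => ?_
      have : cls ∅ f = {f} := by
        ext g
        rw [mem_cls, Finset.mem_singleton]
        constructor
        · intro h
          exact Subtype.ext (funext fun j => h j (Finset.notMem_empty j))
        · intro h j _
          rw [h]
      rw [this]
      simp
  · obtain ⟨ν, hν, hsupp, hmom⟩ := exists_dirichlet (ι := Fin n) hB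
    have hcube : ∀ᵐ D ∂ν, ∀ i, 0 ≤ D i ∧ D i ≤ 1 := by
      filter_upwards [hsupp] with D hD using hD.1
    refine ⟨ν, hν, hcube, ?_, ?_⟩
    · filter_upwards [hsupp] with D hD y
      constructor
      · rw [← Finset.sum_add_sum_compl B, ← Finset.sum_add_sum_compl B y]
        congr 1
        · unfold mv
          rw [Finset.sum_congr rfl fun i hi => if_pos hi, ← Finset.sum_mul, hD.2, one_mul]
        · unfold mv
          exact Finset.sum_congr rfl fun i hi => if_neg (Finset.mem_compl.1 hi)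
      · rw [← Finset.sum_add_sum_compl B, ← Finset.sum_add_sum_compl B fun i => |y i|]
        refine add_le_add ?_ (le_of_eq ?_)
        · have : ∑ i ∈ B, |mv B D y i| = |∑ j ∈ B, y j| := by
            unfold mv
            rw [Finset.sum_congr rfl fun i hi => by rw [if_pos hi, abs_mul, abs_of_nonneg (hD.1 i).1],
              ← Finset.sum_mul, hD.2, one_mul]
          rw [this]
          exact Finset.abs_sum_le_sum_abs _ _
        · unfold mv
          exact Finset.sum_congr rfl fun i hi => by rw [if_neg (Finset.mem_compl.1 hi)]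
    · intro k v y
      rw [hNB]
      unfold pf
      have hint : ∀ f : Config n k, Integrable (fun D => v f * mono f (mv B D y)) ν := fun f =>
        integrable_of_cube hcube (continuous_const.mul ((mono_continuous f).comp (mv_continuous B y)))
      rw [integral_finsetSum _ fun f _ => hint f]
      refine Finset.sum_congr rfl fun f _ => ?_
      rw [integral_const_mul]
      congr 1
      -- average over the class = integral of the monomial
      set l := ∑ i ∈ B, f.1 i with hl
      set c := ∏ i ∈ Bᶜ, y i ^ f.1 i / ((f.1 i).factorial : ℝ) with hc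
      have hcont : ∀ g : Config n k, Continuous fun D : Fin n → ℝ =>
          ∏ i ∈ B, D i ^ g.1 i / ((g.1 i).factorial : ℝ) := fun g => by fun_prop
      have hcard : ((cls B f).card : ℝ) *
          (∫ D, ∏ i ∈ B, D i ^ f.1 i / ((f.1 i).factorial : ℝ) ∂ν) = 1 / (l.factorial : ℝ) := by
        have h1 : ∫ D, ∑ g ∈ cls B f, ∏ i ∈ B, D i ^ g.1 i / ((g.1 i).factorial : ℝ) ∂ν =
            1 / (l.factorial : ℝ) := by
          have : ∀ᵐ D ∂ν, ∑ g ∈ cls B f, ∏ i ∈ B, D i ^ g.1 i / ((g.1 i).factorial : ℝ) =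
              1 / (l.factorial : ℝ) := by
            filter_upwards [hsupp] with D hD
            rw [multinomial_cls, hD.2, one_pow]
          rw [integral_congr_ae this, integral_const, probReal_univ, one_smul]
        rw [integral_finsetSum _ fun g _ => integrable_of_cube hcube (hcont g)] at h1
        rw [← h1]
        have : ∀ g ∈ cls B f, ∫ D, ∏ i ∈ B, D i ^ g.1 i / ((g.1 i).factorial : ℝ) ∂ν =
            ∫ D, ∏ i ∈ B, D i ^ f.1 i / ((f.1 i).factorial : ℝ) ∂ν := by
          intro g hg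
          rw [hmom, hmom, cls_sum_eq hg]
        rw [Finset.sum_congr rfl this, Finset.sum_const, nsmul_eq_mul]
      have hcpos : ((cls B f).card : ℝ) ≠ 0 := by
        exact_mod_cast (cls_card_pos B f).ne'
      have e1 : ∑ g ∈ cls B f, mono g y = c * ((∑ i ∈ B, y i) ^ l / (l.factorial : ℝ)) := by
        rw [Finset.sum_congr rfl fun g hg => mono_split B hg y, ← Finset.mul_sum, multinomial_cls]
      have e2 : ∫ D, mono f (mv B D y) ∂ν = (c * (∑ i ∈ B, y i) ^ l) *
          ∫ D, ∏ i ∈ B, D i ^ f.1 i / ((f.1 i).factorial : ℝ) ∂ν := by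
        simp only [mono_mv]
        rw [integral_const_mul]
      rw [e1, e2]
      have e3 : ∫ D, ∏ i ∈ B, D i ^ f.1 i / ((f.1 i).factorial : ℝ) ∂ν =
          ((cls B f).card : ℝ)⁻¹ * (1 / (l.factorial : ℝ)) := by
        rw [← hcard]
        field_simp
      rw [e3]
      ring

end configurations

section polynomials

open MvPolynomial

variable {n k : ℕ}

/-- the polynomial attached to a vector of `MS(n,k)` -/
noncomputable def toPoly (v : Config n k → ℝ) : MvPolynomial (Fin n) ℝ :=
  ∑ f : Config n k, monomial (Finsupp.equivFunOnFinite.symm f.1) (v f / ∏ i, ((f.1 i).factorial : ℝ))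

lemma eval_toPoly (v : Config n k → ℝ) (y : Fin n → ℝ) : eval y (toPoly v) = pf v y := by
  unfold toPoly pf mono
  rw [map_sum]
  refine Finset.sum_congr rfl fun f _ => ?_
  rw [eval_monomial, Finsupp.prod_fintype _ _ (fun i => pow_zero _), Finset.prod_div_distrib]
  simp only [Finsupp.equivFunOnFinite_symm_apply_apply]
  ring

lemma prod_fact_ne (f : Fin n → ℕ) : (∏ i, ((f i).factorial : ℝ)) ≠ 0 :=
  Finset.prod_ne_zero_iff.2 fun i _ => by positivity

lemma coeff_toPoly (v : Config n k → ℝ) (f : Config n k) :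
    coeff (Finsupp.equivFunOnFinite.symm f.1) (toPoly v) = v f / ∏ i, ((f.1 i).factorial : ℝ) := by
  unfold toPoly
  rw [coeff_sum, Finset.sum_eq_single f]
  · rw [coeff_monomial, if_pos rfl]
  · intro g _ hg
    rw [coeff_monomial, if_neg]
    intro h
    exact hg (Subtype.ext (Finsupp.equivFunOnFinite.symm.injective h))
  · intro h
    exact absurd (Finset.mem_univ _) h

lemma degree_config (m : Fin n →₀ ℕ) : m.degree = ∑ i, m i := by
  rw [Finsupp.degree_eq_sum]

lemma toPoly_homogeneous (v : Config n k → ℝ) : (toPoly v).IsHomogeneous k := by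
  unfold toPoly
  refine IsHomogeneous.sum _ _ _ fun f _ => isHomogeneous_monomial _ ?_
  rw [degree_config]
  exact f.2

lemma pf_injective {v v' : Config n k → ℝ} (h : ∀ y, pf v y = pf v' y) : v = v' := by
  have h1 : toPoly v = toPoly v' := MvPolynomial.funext fun y => by
    rw [eval_toPoly, eval_toPoly, h]
  funext f
  have h2 := congrArg (coeff (Finsupp.equivFunOnFinite.symm f.1)) h1
  rw [coeff_toPoly, coeff_toPoly] at h2
  have h3 := prod_fact_ne f.1
  field_simp at h2
  exact h2

lemma exists_toPoly {φ : MvPolynomial (Fin n) ℝ} (hφ : φ.IsHomogeneous k) :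
    ∃ v : Config n k → ℝ, toPoly v = φ := by
  refine ⟨fun f => coeff (Finsupp.equivFunOnFinite.symm f.1) φ * ∏ i, ((f.1 i).factorial : ℝ), ?_⟩
  ext m
  by_cases hm : ∑ i, m i = k
  · set f : Config n k := ⟨fun i => m i, hm⟩ with hf
    have hmf : m = Finsupp.equivFunOnFinite.symm f.1 := by
      ext i; simp [hf]
    rw [hmf, coeff_toPoly]
    have h3 := prod_fact_ne f.1
    field_simp
  · have hm' : m.degree ≠ k := by rw [degree_config]; exact hm
    rw [(toPoly_homogeneous _).coeff_eq_zero hm', hφ.coeff_eq_zero hm']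

/-- the linear form `∑ X i` -/
noncomputable def S (n : ℕ) : MvPolynomial (Fin n) ℝ := ∑ i, X i

lemma S_homogeneous : (S n).IsHomogeneous 1 :=
  IsHomogeneous.sum _ _ _ fun i _ => isHomogeneous_X _ _

lemma eval_S (y : Fin n → ℝ) : eval y (S n) = ∑ i, y i := by
  unfold S
  rw [map_sum]
  simp

lemma S_ne_zero (hn : 0 < n) : S n ≠ 0 := by
  intro h
  have h1 := congrArg (eval (fun _ => (1:ℝ))) h
  rw [eval_S] at h1
  simp at h1
  omega

lemma exists_lift (u : Config n k → ℝ) :
    ∃ v : Config n (k + 1) → ℝ, ∀ y, pf v y = (∑ i, y i) * pf u y := by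
  have h1 : (S n * toPoly u).IsHomogeneous (k + 1) := by
    rw [add_comm]
    exact S_homogeneous.mul (toPoly_homogeneous u)
  obtain ⟨v, hv⟩ := exists_toPoly h1
  refine ⟨v, fun y => ?_⟩
  rw [← eval_toPoly, hv, map_mul, eval_S, eval_toPoly]

/-- the substitution restricting a polynomial to the hyperplane `∑ X i = 0` -/
noncomputable def restr (i₀ : Fin n) : MvPolynomial (Fin n) ℝ →ₐ[ℝ] MvPolynomial (Fin n) ℝ :=
  aeval fun i => if i = i₀ then X i₀ - S n else X i

lemma S_dvd_sub_restr (i₀ : Fin n) (φ : MvPolynomial (Fin n) ℝ) : S n ∣ φ - restr i₀ φ := by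
  induction φ using MvPolynomial.induction_on with
  | C a =>
    have : restr i₀ (C a) = C a := by
      unfold restr
      rw [aeval_C]; rfl
    rw [this, sub_self]
    exact dvd_zero _
  | add p q hp hq =>
    have : p + q - restr i₀ (p + q) = (p - restr i₀ p) + (q - restr i₀ q) := by
      rw [map_add]; ring
    rw [this]
    exact dvd_add hp hq
  | mul_X p i hp =>
    have h1 : p * X i - restr i₀ (p * X i) =
        (p - restr i₀ p) * X i + restr i₀ p * (X i - restr i₀ (X i)) := by
      rw [map_mul]; ring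
    rw [h1]
    refine dvd_add (Dvd.dvd.mul_right hp _) (Dvd.dvd.mul_left ?_ _)
    have h2 : restr i₀ (X i) = if i = i₀ then X i₀ - S n else X i := by
      unfold restr
      rw [aeval_X]
    rw [h2]
    split_ifs with h
    · subst h
      rw [sub_sub_cancel]
    · rw [sub_self]
      exact dvd_zero _

lemma eval_restr (i₀ : Fin n) (φ : MvPolynomial (Fin n) ℝ) (y : Fin n → ℝ) :
    eval y (restr i₀ φ) = eval (fun i => if i = i₀ then y i₀ - ∑ j, y j else y i) φ := by
  have h1 : (eval y).comp (restr i₀ : MvPolynomial (Fin n) ℝ →+* MvPolynomial (Fin n) ℝ) =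
      eval (fun i => if i = i₀ then y i₀ - ∑ j, y j else y i) := by
    refine MvPolynomial.ringHom_ext (fun a => ?_) fun i => ?_
    · simp [restr]
    · simp only [RingHom.comp_apply, RingHom.coe_coe, eval_X]
      unfold restr
      rw [aeval_X]
      split_ifs
      · rw [map_sub, eval_X, eval_S]
      · rw [eval_X]
  have h2 := congrArg (fun g : MvPolynomial (Fin n) ℝ →+* ℝ => g φ) h1
  simpa using h2

lemma exists_div (hn : 0 < n) (v : Config n (k + 1) → ℝ)
    (hv : ∀ y : Fin n → ℝ, ∑ i, y i = 0 → pf v y = 0) :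
    ∃ u : Config n k → ℝ, ∀ y, pf v y = (∑ i, y i) * pf u y := by
  set i₀ : Fin n := ⟨0, hn⟩ with hi₀
  have h1 : restr i₀ (toPoly v) = 0 := by
    refine MvPolynomial.funext fun y => ?_
    rw [eval_restr, eval_toPoly, map_zero]
    apply hv
    have : ∀ i, (if i = i₀ then y i₀ - ∑ j, y j else y i) =
        y i - (if i = i₀ then ∑ j, y j else 0) := by
      intro i
      split_ifs with h
      · rw [h]
      · rw [sub_zero]
    rw [Finset.sum_congr rfl fun i _ => this i, Finset.sum_sub_distrib, Finset.sum_ite_eq']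
    simp
  have h2 := S_dvd_sub_restr i₀ (toPoly v)
  rw [h1, sub_zero] at h2
  obtain ⟨ψ, hψ⟩ := h2
  letI := MvPolynomial.gradedAlgebra (σ := Fin n) (R := ℝ)
  have h4 := DirectSum.coe_decompose_mul_add_of_left_mem (homogeneousSubmodule (Fin n) ℝ)
    (a := S n) (b := ψ) (i := 1) (j := k) (S_homogeneous (n := n))
  rw [← hψ, DirectSum.decompose_of_mem_same] at h4
  swap
  · rw [add_comm]
    exact toPoly_homogeneous v
  obtain ⟨u, hu⟩ := exists_toPoly ((mem_homogeneousSubmodule k _).1
    (DirectSum.decompose (homogeneousSubmodule (Fin n) ℝ) ψ k).2)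
  have h3 := h4
  refine ⟨u, fun y => ?_⟩
  rw [← eval_toPoly, h3, ← hu, map_mul, eval_S, eval_toPoly]

/-- real matrix of the Laplacian -/
noncomputable def lap (n k : ℕ) (w : Finset (Fin n) → ℝ) : Matrix (Config n k) (Config n k) ℝ :=
  ∑ B, w B • (1 - NB B)

lemma pf_add (v v' : Config n k → ℝ) (y : Fin n → ℝ) : pf (v + v') y = pf v y + pf v' y := by
  unfold pf
  rw [← Finset.sum_add_distrib]
  exact Finset.sum_congr rfl fun f _ => by rw [Pi.add_apply]; ring

lemma pf_smul (c : ℝ) (v : Config n k → ℝ) (y : Fin n → ℝ) : pf (c • v) y = c * pf v y := by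
  unfold pf
  rw [Finset.mul_sum]
  exact Finset.sum_congr rfl fun f _ => by rw [Pi.smul_apply, smul_eq_mul]; ring

lemma pf_sub (v v' : Config n k → ℝ) (y : Fin n → ℝ) : pf (v - v') y = pf v y - pf v' y := by
  have : v - v' = v + (-1 : ℝ) • v' := by ext f; simp; ring
  rw [this, pf_add, pf_smul]; ring

lemma pf_sum {ι : Type*} (s : Finset ι) (v : ι → Config n k → ℝ) (y : Fin n → ℝ) :
    pf (∑ i ∈ s, v i) y = ∑ i ∈ s, pf (v i) y := by
  classical
  induction s using Finset.induction_on with
  | empty => simp [pf]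
  | insert a s ha ih => rw [Finset.sum_insert ha, Finset.sum_insert ha, pf_add, ih]

lemma lap_mulVec (w : Finset (Fin n) → ℝ) (v : Config n k → ℝ) :
    (lap n k w).mulVec v = ∑ B, w B • (v - (NB B).mulVec v) := by
  unfold lap
  rw [Matrix.sum_mulVec]
  refine Finset.sum_congr rfl fun B _ => ?_
  rw [Matrix.smul_mulVec, Matrix.sub_mulVec, Matrix.one_mulVec]

lemma pf_lap (w : Finset (Fin n) → ℝ) (v : Config n k → ℝ) (y : Fin n → ℝ) :
    pf ((lap n k w).mulVec v) y = ∑ B, w B * (pf v y - pf ((NB B).mulVec v) y) := by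
  rw [lap_mulVec, pf_sum]
  exact Finset.sum_congr rfl fun B _ => by rw [pf_smul, pf_sub]

/-- multiplication by `∑ X i` intertwines the Laplacians -/
lemma intertwine (w : Finset (Fin n) → ℝ) {u : Config n k → ℝ} {v : Config n (k + 1) → ℝ}
    (h : ∀ y, pf v y = (∑ i, y i) * pf u y) (y : Fin n → ℝ) :
    pf ((lap n (k + 1) w).mulVec v) y = (∑ i, y i) * pf ((lap n k w).mulVec u) y := by
  rw [pf_lap, pf_lap, Finset.mul_sum]
  refine Finset.sum_congr rfl fun B _ => ?_
  obtain ⟨ν, hν, -, hs, hrep⟩ := exists_rep B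
  rw [hrep, hrep, h]
  have : ∫ D, pf v (mv B D y) ∂ν = (∑ i, y i) * ∫ D, pf u (mv B D y) ∂ν := by
    rw [← integral_const_mul]
    refine integral_congr_ae ?_
    filter_upwards [hs] with D hD
    rw [h, (hD y).1]
  rw [this]
  ring

end polynomials

section symmetric

variable {m : Type*} [Fintype m] [DecidableEq m] {A : Matrix m m ℝ} (hA : A.IsHermitian)

/-- eigenvectors as plain functions -/
noncomputable def ev (j : m) : m → ℝ := (hA.eigenvectorBasis j).ofLp

lemma ev_eigen (j : m) : A.mulVec (ev hA j) = hA.eigenvalues j • ev hA j :=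
  hA.mulVec_eigenvectorBasis j

lemma ev_expand (u : m → ℝ) : u = ∑ j, (ev hA j ⬝ᵥ u) • ev hA j := by
  have h := hA.eigenvectorBasis.sum_repr' (WithLp.toLp 2 u)
  have h2 := congrArg WithLp.ofLp h
  rw [WithLp.ofLp_sum] at h2
  simp only at h2
  refine h2.symm.trans (Finset.sum_congr rfl fun j _ => ?_)
  rw [WithLp.ofLp_smul]
  congr 1
  rw [EuclideanSpace.inner_eq_star_dotProduct, dotProduct_comm]
  simp [ev]

lemma ev_orth (i j : m) : ev hA i ⬝ᵥ ev hA j = if i = j then 1 else 0 := by
  have h := (orthonormal_iff_ite.1 hA.eigenvectorBasis.orthonormal) i j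
  rw [EuclideanSpace.inner_eq_star_dotProduct, dotProduct_comm] at h
  simpa [ev] using h

lemma ev_coeff {u : m → ℝ} {x : ℝ} (hu : A.mulVec u = x • u) (j : m)
    (hj : hA.eigenvalues j ≠ x) : ev hA j ⬝ᵥ u = 0 := by
  have h1 : ev hA j ⬝ᵥ A.mulVec u = hA.eigenvalues j * (ev hA j ⬝ᵥ u) := by
    rw [Matrix.dotProduct_mulVec, ← Matrix.mulVec_transpose]
    have : A.transpose = A := by
      have := hA.eq
      rwa [Matrix.conjTranspose_eq_transpose_of_trivial] at this
    rw [this, ev_eigen, smul_dotProduct, smul_eq_mul]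
  rw [hu, dotProduct_smul, smul_eq_mul] at h1
  have h2 : (hA.eigenvalues j - x) * (ev hA j ⬝ᵥ u) = 0 := by linarith
  rcases mul_eq_zero.1 h2 with h3 | h3
  · exact absurd (sub_eq_zero.1 h3) hj
  · exact h3

lemma zero_mem_erase_iff : (0 : ℝ) ∈ A.charpoly.roots.erase 0 ↔
    ∃ i j, i ≠ j ∧ hA.eigenvalues i = 0 ∧ hA.eigenvalues j = 0 := by
  rw [hA.roots_charpoly_eq_eigenvalues, ← Multiset.count_pos, Multiset.count_erase_self,
    Multiset.count_map]
  have : (Multiset.filter (fun a => (0:ℝ) = (RCLike.ofReal ∘ hA.eigenvalues) a) Finset.univ.val).card =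
      (Finset.univ.filter fun a => hA.eigenvalues a = 0).card := by
    rw [Finset.card_def, Finset.filter_val]
    congr 2
    funext a
    simp [eq_comm]
  rw [this]
  constructor
  · intro h
    have h2 : 1 < (Finset.univ.filter fun a => hA.eigenvalues a = 0).card := by omega
    obtain ⟨i, hi, j, hj, hij⟩ := Finset.one_lt_card.1 h2
    exact ⟨i, j, hij, (Finset.mem_filter.1 hi).2, (Finset.mem_filter.1 hj).2⟩
  · rintro ⟨i, j, hij, hi, hj⟩
    have h2 : 1 < (Finset.univ.filter fun a => hA.eigenvalues a = 0).card :=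
      Finset.one_lt_card.2 ⟨i, by simp [hi], j, by simp [hj], hij⟩
    omega

lemma mem_roots_iff (x : ℝ) : x ∈ A.charpoly.roots ↔ ∃ j, hA.eigenvalues j = x := by
  rw [hA.roots_charpoly_eq_eigenvalues, Multiset.mem_map]
  simp

include hA in
/-- For a real symmetric matrix annihilating the constant vector, the elements of the spectrum
after removal of one copy of `0` are the eigenvalues having an eigenvector that is not constant. -/
lemma mem_erase_iff [Nonempty m] (h1 : A.mulVec (fun _ => 1) = 0) (x : ℝ) :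
    x ∈ A.charpoly.roots.erase 0 ↔
      ∃ v : m → ℝ, A.mulVec v = x • v ∧ ∀ c : ℝ, v ≠ fun _ => c := by
  have hconst : ∀ c : ℝ, A.mulVec (fun _ => c) = 0 := by
    intro c
    have : (fun _ : m => c) = c • (fun _ : m => (1:ℝ)) := by ext; simp
    rw [this, Matrix.mulVec_smul, h1, smul_zero]
  constructor
  · intro hx
    by_cases hx0 : x = 0
    · subst hx0
      obtain ⟨i, j, hij, hi, hj⟩ := (zero_mem_erase_iff hA).1 hx
      by_cases hci : ∀ c : ℝ, ev hA i ≠ fun _ => c
      · exact ⟨ev hA i, by rw [ev_eigen, hi], hci⟩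
      · refine ⟨ev hA j, by rw [ev_eigen, hj], fun d hd => ?_⟩
        push Not at hci
        obtain ⟨c, hc⟩ := hci
        have o1 := ev_orth hA i j
        have o2 := ev_orth hA i i
        have o3 := ev_orth hA j j
        rw [if_neg hij, hc, hd] at o1
        rw [if_pos rfl, hc] at o2
        rw [if_pos rfl, hd] at o3
        simp only [dotProduct, Finset.sum_const, nsmul_eq_mul] at o1 o2 o3
        have : (((Finset.univ : Finset m).card : ℝ) * (c * c)) *
            (((Finset.univ : Finset m).card : ℝ) * (d * d)) =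
            (((Finset.univ : Finset m).card : ℝ) * (c * d)) *
              (((Finset.univ : Finset m).card : ℝ) * (c * d)) := by ring
        rw [o1, o2, o3] at this
        norm_num at this
    · have hx' : x ∈ A.charpoly.roots := Multiset.mem_of_mem_erase hx
      obtain ⟨j, hj⟩ := (mem_roots_iff hA x).1 hx'
      refine ⟨ev hA j, by rw [ev_eigen, hj], fun c hc => ?_⟩
      have h2 := ev_eigen hA j
      rw [hc, hconst, hj] at h2
      have h3 : (fun _ : m => c) = 0 := by
        rcases smul_eq_zero.1 h2.symm with h | h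
        · exact absurd h hx0
        · exact h
      have o2 := ev_orth hA j j
      rw [if_pos rfl, hc, h3] at o2
      simp at o2
  · rintro ⟨v, hv, hvc⟩
    by_cases hx0 : x = 0
    · subst hx0
      by_contra hcon
      rw [zero_mem_erase_iff hA] at hcon
      push Not at hcon
      -- some coefficient of the constant vector is nonzero
      have hex : ∃ j₀, ev hA j₀ ⬝ᵥ (fun _ => (1:ℝ)) ≠ 0 := by
        by_contra h
        push Not at h
        have h2 := ev_expand hA (fun _ => (1:ℝ))
        rw [Finset.sum_eq_zero (fun j _ => by rw [h j, zero_smul])] at h2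
        obtain ⟨a⟩ := (inferInstance : Nonempty m)
        have h3 := congrFun h2 a
        simp at h3
      obtain ⟨j₀, hj₀⟩ := hex
      have h1' : A.mulVec (fun _ => (1:ℝ)) = (0:ℝ) • (fun _ => (1:ℝ)) := by rw [h1, zero_smul]
      have he0 : hA.eigenvalues j₀ = 0 := by
        by_contra h
        exact hj₀ (ev_coeff hA h1' j₀ h)
      have hother : ∀ (u : m → ℝ), A.mulVec u = (0:ℝ) • u → u = (ev hA j₀ ⬝ᵥ u) • ev hA j₀ := by
        intro u hu
        have h2 := ev_expand hA u
        rw [Finset.sum_eq_single j₀] at h2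
        · exact h2
        · intro j _ hj
          have h3 : hA.eigenvalues j ≠ 0 := fun h => hcon j₀ j hj.symm he0 h
          rw [ev_coeff hA hu j h3, zero_smul]
        · intro h
          exact absurd (Finset.mem_univ _) h
      have e1 := hother _ h1'
      have e2 := hother _ hv
      set a := ev hA j₀ ⬝ᵥ (fun _ => (1:ℝ)) with ha
      set b := ev hA j₀ ⬝ᵥ v with hb
      refine hvc (b / a) ?_
      funext i
      have e1i := congrFun e1 i
      have e2i := congrFun e2 i
      simp only [Pi.smul_apply, smul_eq_mul] at e1i e2i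
      have : ev hA j₀ i = 1 / a := by field_simp; linarith
      rw [e2i, this]
      ring
    · rw [Multiset.mem_erase_of_ne hx0, mem_roots_iff hA]
      by_contra hcon
      push Not at hcon
      have h2 := ev_expand hA v
      rw [Finset.sum_eq_zero (fun j _ => by rw [ev_coeff hA hv j (hcon j), zero_smul])] at h2
      exact hvc 0 h2

end symmetric


section laplacian

variable {n k : ℕ}

lemma NB_symm (B : Finset (Fin n)) (f g : Config n k) : NB B f g = NB B g f := by
  unfold NB
  by_cases h : g ∈ cls B f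
  · rw [if_pos h, if_pos (cls_symm.1 h), cls_eq h]
  · rw [if_neg h, if_neg (fun h' => h (cls_symm.1 h'))]

lemma lap_hermitian (w : Finset (Fin n) → ℝ) : (lap n k w).IsHermitian := by
  ext f g
  rw [Matrix.conjTranspose_apply, star_trivial]
  unfold lap
  rw [Matrix.sum_apply, Matrix.sum_apply]
  refine Finset.sum_congr rfl fun B _ => ?_
  rw [Matrix.smul_apply, Matrix.smul_apply, Matrix.sub_apply, Matrix.sub_apply, NB_symm B f g]
  congr 2
  by_cases h : f = g
  · subst h; rfl
  · rw [Matrix.one_apply_ne h, Matrix.one_apply_ne (fun h' => h h'.symm)]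

lemma NB_const (B : Finset (Fin n)) :
    (NB B).mulVec (fun _ : Config n k => (1:ℝ)) = fun _ => 1 := by
  funext g
  simp only [Matrix.mulVec, dotProduct, mul_one]
  have h1 : ∀ f : Config n k, NB B g f = if f ∈ cls B g then ((cls B g).card : ℝ)⁻¹ else 0 := by
    intro f
    rw [NB_symm]
    rfl
  rw [Finset.sum_congr rfl fun f _ => h1 f, Finset.sum_ite_mem, Finset.univ_inter,
    Finset.sum_const, nsmul_eq_mul]
  have : ((cls B g).card : ℝ) ≠ 0 := by exact_mod_cast (cls_card_pos B g).ne'
  field_simp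

lemma lap_const (w : Finset (Fin n) → ℝ) :
    (lap n k w).mulVec (fun _ : Config n k => (1:ℝ)) = 0 := by
  rw [lap_mulVec]
  refine Finset.sum_eq_zero fun B _ => ?_
  rw [NB_const, sub_self, smul_zero]

/-- `x` is in the spectrum after removing one copy of the trivial eigenvalue `0` -/
def Good (w : Finset (Fin n) → ℝ) (k : ℕ) (x : ℝ) : Prop :=
  ∃ v : Config n k → ℝ, (lap n k w).mulVec v = x • v ∧ ∀ c : ℝ, v ≠ fun _ => c

lemma config_nonempty (hn : 0 < n) : Nonempty (Config n k) :=
  ⟨⟨Pi.single ⟨0, hn⟩ k, by simp⟩⟩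

lemma good_iff (hn : 0 < n) (w : Finset (Fin n) → ℝ) (x : ℝ) :
    x ∈ (lap n k w).charpoly.roots.erase 0 ↔ Good w k x := by
  haveI := config_nonempty (k := k) hn
  exact mem_erase_iff (lap_hermitian w) (lap_const w) x

lemma pf_const (hn : 0 < n) (c : ℝ) (y : Fin n → ℝ) :
    pf (fun _ : Config n k => c) y = c * ((∑ i, y i) ^ k / (k.factorial : ℝ)) := by
  obtain ⟨f⟩ := config_nonempty (k := k) hn
  have h := multinomial_cls Finset.univ f y
  rw [f.2] at h
  rw [← h]
  unfold pf mono
  rw [← Finset.mul_sum]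
  congr 1
  refine Finset.sum_congr ?_ fun _ _ => rfl
  ext g
  rw [mem_cls]
  simp

lemma cancel_S (hn : 0 < n) {a b : Config n k → ℝ}
    (h : ∀ y : Fin n → ℝ, (∑ i, y i) * pf a y = (∑ i, y i) * pf b y) : a = b := by
  have h1 : S n * toPoly a = S n * toPoly b := MvPolynomial.funext fun y => by
    rw [map_mul, map_mul, eval_S, eval_toPoly, eval_toPoly, h]
  have h2 := mul_left_cancel₀ (S_ne_zero hn) h1
  refine pf_injective fun y => ?_
  rw [← eval_toPoly, ← eval_toPoly, h2]

/-- relation between a vector of `MS(n,k+1)` divisible by `∑ X i` and its quotient -/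
lemma const_iff (hn : 0 < n) {u : Config n k → ℝ} {v : Config n (k + 1) → ℝ}
    (h : ∀ y, pf v y = (∑ i, y i) * pf u y) :
    (∀ c : ℝ, v ≠ fun _ => c) ↔ ∀ c : ℝ, u ≠ fun _ => c := by
  have hk : ((k + 1 : ℕ) : ℝ) ≠ 0 := by positivity
  have hf : ((k + 1).factorial : ℝ) = ((k + 1 : ℕ) : ℝ) * (k.factorial : ℝ) := by
    rw [Nat.factorial_succ]; push_cast; ring
  have hf0 : (k.factorial : ℝ) ≠ 0 := by positivity
  constructor
  · intro hv c hc
    refine hv (c * ((k + 1 : ℕ) : ℝ)) (pf_injective fun y => ?_)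
    rw [h, hc, pf_const hn, pf_const hn, hf]
    field_simp
    ring
  · intro hu c hc
    refine hu (c / ((k + 1 : ℕ) : ℝ)) (cancel_S hn fun y => ?_)
    rw [← h, hc, pf_const hn, pf_const hn, hf]
    field_simp
    ring

lemma good_lift (hn : 0 < n) {w : Finset (Fin n) → ℝ} {x : ℝ} (h : Good w k x) :
    Good w (k + 1) x := by
  obtain ⟨u, hu, hc⟩ := h
  obtain ⟨v, hv⟩ := exists_lift u
  refine ⟨v, pf_injective fun y => ?_, (const_iff hn hv).2 hc⟩
  rw [intertwine w hv, hu, pf_smul, pf_smul, hv]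
  ring

lemma good_mono (hn : 0 < n) {w : Finset (Fin n) → ℝ} {x : ℝ} {l : ℕ} (hkl : k ≤ l)
    (h : Good w k x) : Good w l x := by
  induction l, hkl using Nat.le_induction with
  | base => exact h
  | succ l _ ih => exact good_lift hn ih

/-- `I - L/c` -/
noncomputable def stepOp (w : Finset (Fin n) → ℝ) (c : ℝ) (v : Config n k → ℝ) : Config n k → ℝ :=
  v - c⁻¹ • (lap n k w).mulVec v

lemma stepOp_eigen {w : Finset (Fin n) → ℝ} {c x : ℝ} {v : Config n k → ℝ}
    (hv : (lap n k w).mulVec v = x • v) : stepOp w c v = (1 - c⁻¹ * x) • v := by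
  unfold stepOp
  rw [hv, sub_smul, one_smul, mul_smul]

lemma stepOp_smul (w : Finset (Fin n) → ℝ) (c a : ℝ) (v : Config n k → ℝ) :
    stepOp w c (a • v) = a • stepOp w c v := by
  unfold stepOp
  rw [Matrix.mulVec_smul, smul_sub, smul_comm]

lemma stepOp_add (w : Finset (Fin n) → ℝ) (c : ℝ) (u v : Config n k → ℝ) :
    stepOp w c (u + v) = stepOp w c u + stepOp w c v := by
  unfold stepOp
  rw [Matrix.mulVec_add, smul_add]
  abel

lemma stepOp_sum {ι : Type*} (s : Finset ι) (w : Finset (Fin n) → ℝ) (c : ℝ)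
    (v : ι → Config n k → ℝ) : stepOp w c (∑ i ∈ s, v i) = ∑ i ∈ s, stepOp w c (v i) := by
  classical
  induction s using Finset.induction_on with
  | empty => simp [stepOp]
  | insert a s ha ih => rw [Finset.sum_insert ha, Finset.sum_insert ha, stepOp_add, ih]

lemma iter_eigen {w : Finset (Fin n) → ℝ} {c x : ℝ} {v : Config n k → ℝ}
    (hv : (lap n k w).mulVec v = x • v) (m : ℕ) :
    (stepOp w c)^[m] v = (1 - c⁻¹ * x) ^ m • v := by
  induction m with
  | zero => simp
  | succ m ih =>
    rw [Function.iterate_succ_apply', ih, stepOp_smul, stepOp_eigen hv, smul_smul, pow_succ]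

lemma iter_sum {ι : Type*} (s : Finset ι) (w : Finset (Fin n) → ℝ) (c : ℝ)
    (v : ι → Config n k → ℝ) (m : ℕ) :
    (stepOp w c)^[m] (∑ i ∈ s, v i) = ∑ i ∈ s, (stepOp w c)^[m] (v i) := by
  induction m with
  | zero => simp
  | succ m ih =>
    rw [Function.iterate_succ_apply', ih, stepOp_sum]
    exact Finset.sum_congr rfl fun i _ => (Function.iterate_succ_apply' _ _ _).symm

lemma iter_smul (w : Finset (Fin n) → ℝ) (c a : ℝ) (v : Config n k → ℝ) (m : ℕ) :
    (stepOp w c)^[m] (a • v) = a • (stepOp w c)^[m] v := by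
  induction m with
  | zero => simp
  | succ m ih => rw [Function.iterate_succ_apply', ih, stepOp_smul, Function.iterate_succ_apply']

/-- Positivity and contraction: domination of polynomial functions on an `ℓ¹` ball is preserved. -/
lemma stepOp_dominated {l : ℕ} {w : Finset (Fin n) → ℝ} (hw : ∀ B, 0 ≤ w B) {c : ℝ} (hc : 0 < c)
    (hcw : ∑ B, w B ≤ c) {v : Config n k → ℝ} {q : Config n l → ℝ} {C r : ℝ}
    (h : ∀ y : Fin n → ℝ, ∑ i, |y i| ≤ r → |pf v y| ≤ C * pf q y) :
    ∀ y : Fin n → ℝ, ∑ i, |y i| ≤ r → |pf (stepOp w c v) y| ≤ C * pf (stepOp w c q) y := by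
  intro y hy
  have hform : ∀ {j : ℕ} (u : Config n j → ℝ), pf (stepOp w c u) y =
      (1 - c⁻¹ * ∑ B, w B) * pf u y + ∑ B, (c⁻¹ * w B) * pf ((NB B).mulVec u) y := by
    intro j u
    unfold stepOp
    rw [pf_sub, pf_smul, pf_lap]
    have : ∑ B, w B * (pf u y - pf ((NB B).mulVec u) y) =
        (∑ B, w B) * pf u y - ∑ B, w B * pf ((NB B).mulVec u) y := by
      rw [Finset.sum_mul, ← Finset.sum_sub_distrib]
      exact Finset.sum_congr rfl fun B _ => by ring
    rw [this]
    have h2 : ∑ B, (c⁻¹ * w B) * pf ((NB B).mulVec u) y =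
        c⁻¹ * ∑ B, w B * pf ((NB B).mulVec u) y := by
      rw [Finset.mul_sum]
      exact Finset.sum_congr rfl fun B _ => by ring
    rw [h2]
    ring
  have hB : ∀ B : Finset (Fin n), |pf ((NB B).mulVec v) y| ≤ C * pf ((NB B).mulVec q) y := by
    intro B
    obtain ⟨ν, hν, hcube, hs, hrep⟩ := exists_rep B
    rw [hrep, hrep, ← integral_const_mul]
    have i1 : Integrable (fun D => pf v (mv B D y)) ν :=
      integrable_of_cube hcube ((pf_continuous v).comp (mv_continuous B y))
    have i2 : Integrable (fun D => C * pf q (mv B D y)) ν :=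
      (integrable_of_cube hcube ((pf_continuous q).comp (mv_continuous B y))).const_mul C
    calc |∫ D, pf v (mv B D y) ∂ν| ≤ ∫ D, |pf v (mv B D y)| ∂ν := abs_integral_le_integral_abs
      _ ≤ ∫ D, C * pf q (mv B D y) ∂ν := by
        refine integral_mono_ae i1.abs i2 ?_
        filter_upwards [hs] with D hD
        exact h _ ((hD y).2.trans hy)
  have ha : 0 ≤ 1 - c⁻¹ * ∑ B, w B := by
    have : c⁻¹ * ∑ B, w B ≤ c⁻¹ * c := mul_le_mul_of_nonneg_left hcw (inv_nonneg.2 hc.le)
    rw [inv_mul_cancel₀ hc.ne'] at this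
    linarith
  rw [hform, hform]
  calc |(1 - c⁻¹ * ∑ B, w B) * pf v y + ∑ B, (c⁻¹ * w B) * pf ((NB B).mulVec v) y|
      ≤ |(1 - c⁻¹ * ∑ B, w B) * pf v y| + |∑ B, (c⁻¹ * w B) * pf ((NB B).mulVec v) y| :=
        abs_add_le _ _
    _ ≤ (1 - c⁻¹ * ∑ B, w B) * |pf v y| + ∑ B, (c⁻¹ * w B) * |pf ((NB B).mulVec v) y| := by
        refine add_le_add ?_ ((Finset.abs_sum_le_sum_abs _ _).trans (Finset.sum_le_sum fun B _ => ?_))
        · rw [abs_mul, abs_of_nonneg ha]
        · rw [abs_mul, abs_of_nonneg (mul_nonneg (inv_nonneg.2 hc.le) (hw B))]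
    _ ≤ (1 - c⁻¹ * ∑ B, w B) * (C * pf q y) +
          ∑ B, (c⁻¹ * w B) * (C * pf ((NB B).mulVec q) y) := by
        refine add_le_add (mul_le_mul_of_nonneg_left (h y hy) ha) (Finset.sum_le_sum fun B _ => ?_)
        exact mul_le_mul_of_nonneg_left (hB B) (mul_nonneg (inv_nonneg.2 hc.le) (hw B))
    _ = C * ((1 - c⁻¹ * ∑ B, w B) * pf q y + ∑ B, (c⁻¹ * w B) * pf ((NB B).mulVec q) y) := by
        have : ∑ B, (c⁻¹ * w B) * (C * pf ((NB B).mulVec q) y) =
            C * ∑ B, (c⁻¹ * w B) * pf ((NB B).mulVec q) y := by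
          rw [Finset.mul_sum]
          exact Finset.sum_congr rfl fun B _ => by ring
        rw [this]
        ring

lemma iter_dominated {l : ℕ} {w : Finset (Fin n) → ℝ} (hw : ∀ B, 0 ≤ w B) {c : ℝ} (hc : 0 < c)
    (hcw : ∑ B, w B ≤ c) {v : Config n k → ℝ} {q : Config n l → ℝ} {C r : ℝ}
    (h : ∀ y : Fin n → ℝ, ∑ i, |y i| ≤ r → |pf v y| ≤ C * pf q y) (m : ℕ) :
    ∀ y : Fin n → ℝ, ∑ i, |y i| ≤ r →
      |pf ((stepOp w c)^[m] v) y| ≤ C * pf ((stepOp w c)^[m] q) y := by
  induction m with
  | zero => exact h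
  | succ m ih =>
    intro y hy
    rw [Function.iterate_succ_apply', Function.iterate_succ_apply']
    exact stepOp_dominated hw hc hcw ih y hy

lemma mono_bound (f : Config n k) (y : Fin n → ℝ) : |mono f y| ≤ (∑ i, |y i|) ^ k := by
  unfold mono
  rw [Finset.abs_prod]
  calc ∏ i, |y i ^ f.1 i / ((f.1 i).factorial : ℝ)| ≤ ∏ i, (∑ j, |y j|) ^ f.1 i := by
        refine Finset.prod_le_prod (fun i _ => abs_nonneg _) fun i _ => ?_
        rw [abs_div, abs_pow, abs_of_nonneg (by positivity : (0:ℝ) ≤ ((f.1 i).factorial : ℝ))]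
        have h1 : |y i| ≤ ∑ j, |y j| :=
          Finset.single_le_sum (f := fun j => |y j|) (fun j _ => abs_nonneg _) (Finset.mem_univ i)
        have h2 : |y i| ^ f.1 i ≤ (∑ j, |y j|) ^ f.1 i := pow_le_pow_left₀ (abs_nonneg _) h1 _
        have h3 : (1:ℝ) ≤ ((f.1 i).factorial : ℝ) := by exact_mod_cast Nat.factorial_pos _
        exact (div_le_self (by positivity) h3).trans h2
    _ = (∑ j, |y j|) ^ k := by rw [Finset.prod_pow_eq_pow_sum, f.2]

/-- On an `ℓ¹` ball a form of degree `k ≥ 2` is dominated by the sum of squares. -/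
lemma pf_bound (v : Config n (k + 2) → ℝ) {r : ℝ} (hr : 0 ≤ r) :
    ∃ C : ℝ, 0 ≤ C ∧ ∀ y : Fin n → ℝ, ∑ i, |y i| ≤ r → |pf v y| ≤ C * ∑ i, y i ^ 2 := by
  refine ⟨(∑ f, |v f|) * (r ^ k * n), by positivity, fun y hy => ?_⟩
  have ht : 0 ≤ ∑ i, |y i| := Finset.sum_nonneg fun i _ => abs_nonneg _
  have h1 : (∑ i, |y i|) ^ 2 ≤ n * ∑ i, y i ^ 2 := by
    have := sq_sum_le_card_mul_sum_sq (s := (Finset.univ : Finset (Fin n))) (f := fun i => |y i|)
    simpa using this
  have h2 : (∑ i, |y i|) ^ (k + 2) ≤ r ^ k * (n * ∑ i, y i ^ 2) := by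
    rw [pow_add]
    exact mul_le_mul (pow_le_pow_left₀ ht hy k) h1 (by positivity) (by positivity)
  unfold pf
  calc |∑ f, v f * mono f y| ≤ ∑ f, |v f * mono f y| := Finset.abs_sum_le_sum_abs _ _
    _ ≤ ∑ f, |v f| * (r ^ k * (n * ∑ i, y i ^ 2)) := by
        refine Finset.sum_le_sum fun f _ => ?_
        rw [abs_mul]
        exact mul_le_mul_of_nonneg_left ((mono_bound f y).trans h2) (abs_nonneg _)
    _ = (∑ f, |v f|) * (r ^ k * n) * ∑ i, y i ^ 2 := by rw [← Finset.sum_mul]; ring

lemma exists_sq : ∃ q : Config n 2 → ℝ, ∀ y : Fin n → ℝ, pf q y = ∑ i, y i ^ 2 := by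
  have h : (∑ i, MvPolynomial.X i ^ 2 : MvPolynomial (Fin n) ℝ).IsHomogeneous 2 := by
    refine MvPolynomial.IsHomogeneous.sum _ _ _ fun i _ => ?_
    have := (MvPolynomial.isHomogeneous_X ℝ i).pow 2
    simpa using this
  obtain ⟨q, hq⟩ := exists_toPoly h
  refine ⟨q, fun y => ?_⟩
  rw [← eval_toPoly, hq, map_sum]
  exact Finset.sum_congr rfl fun i _ => by rw [map_pow, MvPolynomial.eval_X]

/-- The key estimate: an eigenform of degree at least `2` that does not vanish on the hyperplane
`∑ y i = 0` has eigenvalue at least every lower bound of the nontrivial spectrum in degree `2`. -/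
lemma key (hn : 0 < n) {w : Finset (Fin n) → ℝ} (hw : ∀ B, 0 ≤ w B) {lam : ℝ}
    (hlam : ∀ x, Good w 2 x → lam ≤ x) {x : ℝ} {z : Config n (k + 2) → ℝ}
    (hz : (lap n (k + 2) w).mulVec z = x • z) {y : Fin n → ℝ} (hy : ∑ i, y i = 0)
    (hzy : pf z y ≠ 0) : lam ≤ x := by
  by_contra hcon
  push Not at hcon
  obtain ⟨q, hq⟩ := exists_sq (n := n)
  set r := ∑ i, |y i| with hr
  have hr0 : 0 ≤ r := Finset.sum_nonneg fun i _ => abs_nonneg _
  obtain ⟨C, hC0, hC⟩ := pf_bound z hr0
  have hA := lap_hermitian (k := 2) w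
  -- choice of the normalisation
  set c := ∑ B, w B + ∑ j, |hA.eigenvalues j| + |lam| + 1 with hcdef
  have hw0 : 0 ≤ ∑ B, w B := Finset.sum_nonneg fun B _ => hw B
  have he0 : 0 ≤ ∑ j, |hA.eigenvalues j| := Finset.sum_nonneg fun j _ => abs_nonneg _
  have hc : 0 < c := by have := abs_nonneg lam; linarith
  have hcw : ∑ B, w B ≤ c := by have := abs_nonneg lam; linarith
  have hce : ∀ j, hA.eigenvalues j ≤ c := by
    intro j
    have h1 : |hA.eigenvalues j| ≤ ∑ j, |hA.eigenvalues j| :=
      Finset.single_le_sum (f := fun j => |hA.eigenvalues j|) (fun j _ => abs_nonneg _)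
        (Finset.mem_univ j)
    have := abs_nonneg lam
    have := le_abs_self (hA.eigenvalues j)
    linarith
  have hcl : lam < c := by have := le_abs_self lam; linarith
  set ρ := 1 - c⁻¹ * lam with hρ
  set μ := 1 - c⁻¹ * x with hμ
  have hρ0 : 0 < ρ := by
    have : c⁻¹ * lam < c⁻¹ * c := mul_lt_mul_of_pos_left hcl (inv_pos.2 hc)
    rw [inv_mul_cancel₀ hc.ne'] at this
    linarith
  have hρμ : ρ < μ := by
    have : c⁻¹ * x < c⁻¹ * lam := mul_lt_mul_of_pos_left hcon (inv_pos.2 hc)
    linarith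
  -- upper bound for the quadratic form
  have hquad : ∃ C' : ℝ, ∀ m : ℕ, pf ((stepOp w c)^[m] q) y ≤ C' * ρ ^ m := by
    refine ⟨∑ j, |(ev hA j ⬝ᵥ q) * pf (ev hA j) y|, fun m => ?_⟩
    have h1 := ev_expand hA q
    have h2 : (stepOp w c)^[m] q =
        ∑ j, ((ev hA j ⬝ᵥ q) * (1 - c⁻¹ * hA.eigenvalues j) ^ m) • ev hA j := by
      conv_lhs => rw [h1]
      rw [iter_sum]
      refine Finset.sum_congr rfl fun j _ => ?_
      rw [iter_smul, iter_eigen (ev_eigen hA j), smul_smul]
    rw [h2, pf_sum, Finset.sum_mul]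
    refine Finset.sum_le_sum fun j _ => ?_
    rw [pf_smul]
    by_cases hj : ∀ c : ℝ, ev hA j ≠ fun _ => c
    · have h3 : lam ≤ hA.eigenvalues j := hlam _ ⟨ev hA j, ev_eigen hA j, hj⟩
      have h4 : 0 ≤ 1 - c⁻¹ * hA.eigenvalues j := by
        have : c⁻¹ * hA.eigenvalues j ≤ c⁻¹ * c :=
          mul_le_mul_of_nonneg_left (hce j) (inv_nonneg.2 hc.le)
        rw [inv_mul_cancel₀ hc.ne'] at this
        linarith
      have h5 : 1 - c⁻¹ * hA.eigenvalues j ≤ ρ := by
        have : c⁻¹ * lam ≤ c⁻¹ * hA.eigenvalues j :=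
          mul_le_mul_of_nonneg_left h3 (inv_nonneg.2 hc.le)
        linarith
      have h6 : (1 - c⁻¹ * hA.eigenvalues j) ^ m ≤ ρ ^ m := pow_le_pow_left₀ h4 h5 m
      calc (ev hA j ⬝ᵥ q) * (1 - c⁻¹ * hA.eigenvalues j) ^ m * pf (ev hA j) y
          = ((ev hA j ⬝ᵥ q) * pf (ev hA j) y) * (1 - c⁻¹ * hA.eigenvalues j) ^ m := by ring
        _ ≤ |(ev hA j ⬝ᵥ q) * pf (ev hA j) y| * (1 - c⁻¹ * hA.eigenvalues j) ^ m :=
            mul_le_mul_of_nonneg_right (le_abs_self _) (pow_nonneg h4 m)
        _ ≤ |(ev hA j ⬝ᵥ q) * pf (ev hA j) y| * ρ ^ m :=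
            mul_le_mul_of_nonneg_left h6 (abs_nonneg _)
    · push Not at hj
      obtain ⟨d, hd⟩ := hj
      have h3 : pf (ev hA j) y = 0 := by
        rw [hd, pf_const hn, hy]
        simp
      rw [h3]
      simp
  obtain ⟨C', hC'⟩ := hquad
  have hdom := iter_dominated (l := 2) hw hc hcw (v := z) (q := q) (C := C) (r := r)
    (fun y' hy' => by rw [hq]; exact hC y' hy')
  have hmain : ∀ m : ℕ, (μ / ρ) ^ m ≤ C * C' / |pf z y| := by
    intro m
    have h1 := hdom m y le_rfl
    rw [iter_eigen hz, pf_smul, abs_mul, abs_of_nonneg (pow_nonneg (hρ0.trans hρμ).le m)] at h1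
    have h2 : C * pf ((stepOp w c)^[m] q) y ≤ C * (C' * ρ ^ m) :=
      mul_le_mul_of_nonneg_left (hC' m) hC0
    have h3 : 0 < |pf z y| := abs_pos.2 hzy
    rw [div_pow, div_le_div_iff₀ (pow_pos hρ0 m) h3]
    calc μ ^ m * |pf z y| ≤ C * (C' * ρ ^ m) := h1.trans h2
      _ = C * C' * ρ ^ m := by ring
  have hgt : 1 < μ / ρ := (one_lt_div hρ0).2 hρμ
  obtain ⟨m, hm⟩ := pow_unbounded_of_one_lt (C * C' / |pf z y|) hgt
  exact absurd (hmain m) (not_le.2 hm)

/-- lower bound for all degrees at least two -/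
lemma good_lower (hn : 0 < n) {w : Finset (Fin n) → ℝ} (hw : ∀ B, 0 ≤ w B) {lam : ℝ}
    (hlam : ∀ x, Good w 2 x → lam ≤ x) (k : ℕ) : ∀ x, Good w (k + 2) x → lam ≤ x := by
  induction k with
  | zero => exact hlam
  | succ k ih =>
    rintro x ⟨z, hz, hc⟩
    by_cases h : ∀ y : Fin n → ℝ, ∑ i, y i = 0 → pf z y = 0
    · obtain ⟨u, hu⟩ := exists_div hn z h
      refine ih x ⟨u, cancel_S hn fun y => ?_, (const_iff hn hu).1 hc⟩
      rw [← intertwine w hu, hz, pf_smul, pf_smul, hu]
      ring
    · push Not at h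
      obtain ⟨y, hy, hzy⟩ := h
      exact key hn hw hlam hz hy hzy

end laplacian

section main

variable {n k : ℕ}

/-- `MS(n,k)`: the complex vector space with the configurations as a basis. -/
abbrev MS (n k : ℕ) : Type := Config n k → ℂ

/-- The operator `N_B`: it sends (the basis vector of) a configuration `f` to the uniform average of
all configurations that agree with `f` outside `B`. -/
noncomputable def redistribute (B : Finset (Fin n)) : MS n k →ₗ[ℂ] MS n k :=
  (Pi.basisFun ℂ (Config n k)).constr ℂ fun f =>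
    ((cls B f).card : ℂ)⁻¹ • ∑ g ∈ cls B f, Pi.single g (1 : ℂ)

/-- The Laplacian `∑_B w_B (I - N_B)` of the discrete KMP process with `k` particles on the weighted
hypergraph `([n], w)`. -/
noncomputable def laplacian (n k : ℕ) (w : Finset (Fin n) → ℝ) : MS n k →ₗ[ℂ] MS n k :=
  ∑ B : Finset (Fin n), (w B : ℂ) • (LinearMap.id - redistribute B)

/-- The spectrum with multiplicity (the roots of the characteristic polynomial), after one copy of
the eigenvalue `0` is removed. -/
noncomputable def restSpectrum (n k : ℕ) (w : Finset (Fin n) → ℝ) : Multiset ℂ :=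
  (laplacian n k w).charpoly.roots.erase 0

/-- `λ*_k(Γ)`: the smallest element of the spectrum of the Laplacian, counted with multiplicity, after
one copy of the eigenvalue `0` is removed. -/
noncomputable def gap (n k : ℕ) (w : Finset (Fin n) → ℝ) : ℝ :=
  sInf {x : ℝ | (x : ℂ) ∈ restSpectrum n k w}

lemma toMatrix_laplacian (w : Finset (Fin n) → ℝ) :
    LinearMap.toMatrix (Pi.basisFun ℂ (Config n k)) (Pi.basisFun ℂ (Config n k))
      (laplacian n k w) = (lap n k w).map (Complex.ofRealHom : ℝ →+* ℂ) := by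
  ext g f
  rw [LinearMap.toMatrix_apply, Pi.basisFun_repr, Matrix.map_apply]
  unfold laplacian lap
  rw [LinearMap.sum_apply, Finset.sum_apply, Matrix.sum_apply, map_sum]
  refine Finset.sum_congr rfl fun B _ => ?_
  rw [LinearMap.smul_apply, Pi.smul_apply, smul_eq_mul, Matrix.smul_apply, smul_eq_mul, map_mul]
  congr 1
  rw [LinearMap.sub_apply, LinearMap.id_apply, Pi.sub_apply, Matrix.sub_apply, map_sub]
  congr 1
  · rw [Pi.basisFun_apply, Matrix.one_apply, Pi.single_apply]
    split_ifs <;> simp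
  · unfold redistribute NB
    rw [Module.Basis.constr_basis, Pi.smul_apply, Finset.sum_apply, smul_eq_mul]
    have h1 : ∑ c ∈ cls B f, (Pi.single c (1:ℂ) : Config n k → ℂ) g =
        if g ∈ cls B f then 1 else 0 := by
      rw [← Finset.sum_ite_eq' (cls B f) g (fun _ => (1:ℂ))]
      refine Finset.sum_congr rfl fun c _ => ?_
      rw [Pi.single_apply]
      simp [eq_comm]
    rw [h1]
    split_ifs <;> simp

lemma charpoly_roots (w : Finset (Fin n) → ℝ) :
    (laplacian n k w).charpoly.roots =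
      (lap n k w).charpoly.roots.map (Complex.ofRealHom : ℝ →+* ℂ) := by
  rw [← LinearMap.charpoly_toMatrix _ (Pi.basisFun ℂ (Config n k)), toMatrix_laplacian,
    Matrix.charpoly_map]
  refine (Polynomial.roots_map_of_injective_of_card_eq_natDegree Complex.ofRealHom.injective ?_).symm
  rw [(lap_hermitian w).roots_charpoly_eq_eigenvalues, Multiset.card_map,
    Matrix.charpoly_natDegree_eq_dim]
  rfl

lemma mem_restSpectrum (hn : 0 < n) (w : Finset (Fin n) → ℝ) (x : ℝ) :
    (x : ℂ) ∈ restSpectrum n k w ↔ Good w k x := by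
  unfold restSpectrum
  rw [charpoly_roots, ← good_iff hn]
  have h0 : (0 : ℂ) = (Complex.ofRealHom : ℝ →+* ℂ) 0 := (map_zero _).symm
  have hx : (x : ℂ) = (Complex.ofRealHom : ℝ →+* ℂ) x := rfl
  rw [h0, ← Multiset.map_erase _ Complex.ofRealHom.injective, hx,
    Multiset.mem_map_of_injective Complex.ofRealHom.injective]

/-- Sanity check: the whole spectrum is real. -/
lemma spectrum_real (w : Finset (Fin n) → ℝ) {z : ℂ} (hz : z ∈ (laplacian n k w).charpoly.roots) :
    ∃ x : ℝ, z = x := by
  rw [charpoly_roots, Multiset.mem_map] at hz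
  obtain ⟨x, -, rfl⟩ := hz
  exact ⟨x, rfl⟩

/-- Sanity check: the number of configurations. -/
lemma two_le_card (hn : 2 ≤ n) (hk : 1 ≤ k) : 2 ≤ Fintype.card (Config n k) := by
  have h : (⟨Pi.single ⟨0, by omega⟩ k, by simp⟩ : Config n k) ≠
      ⟨Pi.single ⟨1, by omega⟩ k, by simp⟩ := by
    intro h
    have h1 := congrFun (congrArg Subtype.val h) ⟨0, by omega⟩
    simp at h1
    omega
  exact Fintype.one_lt_card_iff.2 ⟨_, _, h⟩

lemma set_nonempty (hn : 2 ≤ n) (hk : 1 ≤ k) (w : Finset (Fin n) → ℝ) :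
    {x : ℝ | (x : ℂ) ∈ restSpectrum n k w}.Nonempty := by
  have h1 : 0 < (restSpectrum n k w).card := by
    unfold restSpectrum
    have h2 : (laplacian n k w).charpoly.roots.card = Fintype.card (Config n k) := by
      rw [charpoly_roots, Multiset.card_map, (lap_hermitian w).roots_charpoly_eq_eigenvalues,
        Multiset.card_map]
      rfl
    have h3 := two_le_card hn hk
    by_cases h0 : (0 : ℂ) ∈ (laplacian n k w).charpoly.roots
    · rw [Multiset.card_erase_of_mem h0, h2, Nat.pred_eq_sub_one]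
      omega
    · rw [Multiset.erase_of_notMem h0, h2]
      omega
  obtain ⟨z, hz⟩ := Multiset.card_pos_iff_exists_mem.1 h1
  obtain ⟨x, rfl⟩ := spectrum_real w (Multiset.mem_of_mem_erase hz)
  exact ⟨x, hz⟩

lemma set_finite (n k : ℕ) (w : Finset (Fin n) → ℝ) :
    {x : ℝ | (x : ℂ) ∈ restSpectrum n k w}.Finite := by
  have h1 : {z : ℂ | z ∈ restSpectrum n k w}.Finite := Multiset.finite_toSet _
  exact h1.preimage (Complex.ofReal_injective.injOn)

/-- Sanity check: the infimum in the definition of `gap` is a minimum. -/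
lemma gap_isLeast (hn : 2 ≤ n) (hk : 1 ≤ k) (w : Finset (Fin n) → ℝ) :
    IsLeast {x : ℝ | (x : ℂ) ∈ restSpectrum n k w} (gap n k w) :=
  ⟨(set_nonempty hn hk w).csInf_mem (set_finite n k w),
    fun _ hx => csInf_le (set_finite n k w).bddBelow hx⟩

/-- **The conjecture holds.**  For every `n ≥ 2`, every weighted hypergraph on `[n]` with
non-negative weights and every `k ≥ 2`, the discrete KMP processes with `k` and with `2` particles
have the same spectral gap: `λ*_k(Γ) = λ*_2(Γ)`. -/
theorem result (n : ℕ) (hn : 2 ≤ n) (w : Finset (Fin n) → ℝ) (hw : ∀ B, 0 ≤ w B)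
    (k : ℕ) (hk : 2 ≤ k) : gap n k w = gap n 2 w := by
  have hn0 : 0 < n := by omega
  refine le_antisymm ?_ ?_
  · refine csInf_le_csInf (set_finite n k w).bddBelow (set_nonempty hn (by norm_num) w) ?_
    intro x hx
    exact (mem_restSpectrum hn0 w x).2 (good_mono hn0 hk ((mem_restSpectrum hn0 w x).1 hx))
  · refine le_csInf (set_nonempty hn (by omega) w) fun x hx => ?_
    obtain ⟨j, rfl⟩ : ∃ j, k = j + 2 := ⟨k - 2, by omega⟩
    refine good_lower hn0 hw (fun x' hx' => ?_) j x ((mem_restSpectrum hn0 w x).1 hx)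
    exact csInf_le (set_finite n 2 w).bddBelow ((mem_restSpectrum hn0 w x').2 hx')

end main

end Pool.Agent.Results.MP_19659a_pr.SpectralGap
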